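import Pool.Agent.U975.RF.Fields
import Pool.Agent.U975.RG.Main

/-!
# Rational function fields over finite fields
-/

set_option autoImplicit false

namespace Pool.Agent.U975.RF

open Function Pool.Agent.U975.RM Pool.Agent.U975.RE Pool.Agent.U975.RG

/-- the constants of a rational function field -/
theorem ratFunc_reg (κ : Type) [Field κ] (x : RatFunc κ) (hx : IsAlgebraic κ x) :
    ∃ c : κ, algebraMap κ (RatFunc κ) c = x := by
  have h1 : IsIntegral (Polynomial κ) x := hx.isIntegral.tower_top
  obtain ⟨f, rfl⟩ := IsIntegrallyClosed.algebraMap_eq_of_integral h1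
  have h2 : IsAlgebraic κ f := (isAlgebraic_algebraMap_iff (RatFunc.algebraMap_injective κ)).1 hx
  have h3 : f.natDegree = 0 := by
    by_contra hcon
    have h4 := (Polynomial.transcendental_X κ).aeval f hcon
      (mem_nonZeroDivisors_of_ne_zero (by
        intro h0
        rw [Polynomial.leadingCoeff_eq_zero] at h0
        rw [h0, Polynomial.natDegree_zero] at hcon
        exact hcon rfl))
    rw [Polynomial.aeval_X_left_apply] at h4
    exact h4 h2
  refine ⟨f.coeff 0, ?_⟩
  rw [Polynomial.eq_C_of_natDegree_eq_zero h3]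
  simp

/-- regular realizations with restricted ramification -/
theorem exists_regular_restricted {κ K : Type} [Field κ] [Finite κ] [Field K] [Algebra κ K]
    (hreg : ∀ x : K, IsAlgebraic κ x → ∃ c : κ, algebraMap κ K c = x)
    (hK : ∀ (G : Type) [Group G] [Finite G], Occurs K G)
    (G : Type) [Group G] [Finite G] (k b : ℕ) :
    ∃ (F : Type) (_ : Field F) (_ : Algebra K F), FiniteDimensional K F ∧ IsGalois K F ∧
      Nonempty (Gal(F/K) ≃* G) ∧
      (∀ x : F, (∃ f : Polynomial κ, f ≠ 0 ∧
          f.eval₂ ((algebraMap K F).comp (algebraMap κ K)) x = 0) →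
          ∃ c : κ, algebraMap K F (algebraMap κ K c) = x) ∧
      ∀ (A : Type) [CommRing A] [IsDedekindDomain A] [Algebra A K] [IsFractionRing A K]
        [Algebra A F] [IsScalarTower A K F] (P : Ideal (integralClosure A F)), P.IsMaximal →
        P ≠ ⊥ → ∀ l : ℕ, l.Prime → (l : integralClosure A F) ∉ P →
        l ∣ Nat.card (P.inertia Gal(F/K)) →
        (∃ ζ : integralClosure A F ⧸ P, IsPrimitiveRoot ζ (l ^ k)) ∧
        (Finite (A ⧸ P.under A) → b < Nat.card (A ⧸ P.under A)) := by
  obtain ⟨M, i1, i2, i3, i4, F, j1, j2, j3, j4, j5, ⟨γ⟩, hlift, hregF⟩ :=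
    exists_regular hreg hK G (2 + k + b ^ Nat.card G) (by omega)
  have hfd : FiniteDimensional K F := FiniteDimensional.left K F M
  refine ⟨F, j1, j2, hfd, j5, ⟨γ⟩, hregF, ?_⟩
  intro A _ _ _ _ _ _ P hP hP0 l hl hlP hd
  have hker : (AlgEquiv.restrictNormalHom (F := K) (K₁ := F) K).ker = ⊤ := by
    rw [eq_top_iff]
    intro x _
    rw [MonoidHom.mem_ker]
    ext z
    exact AlgEquiv.commutes _ z
  obtain ⟨ζ, hζ⟩ := root_closure (M := M) (F₁ := K) (by omega) (hlift _) P hP hP0 hl hlP (by
    rw [hker, inf_top_eq]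
    exact hd)
  have hlpos : 0 < l ^ (2 + k + b ^ Nat.card G) := pow_pos hl.pos _
  refine ⟨⟨ζ ^ (l ^ (2 + b ^ Nat.card G)), hζ.pow hlpos ?_⟩, ?_⟩
  · rw [← pow_add]
    congr 1
    ring
  · intro hfA
    by_contra hcon
    push Not at hcon
    have hfrac := IsFractionRing.injective A K
    have hfinAB : Module.Finite A (integralClosure A F) :=
      IsIntegralClosure.finite A K F (integralClosure A F)
    have hfinB : Finite (integralClosure A F ⧸ P) :=
      Module.finite_of_finite (A ⧸ P.under A)
    have hnt : Nontrivial (integralClosure A F ⧸ P) := Ideal.Quotient.nontrivial_iff.2 hP.ne_top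
    have h1 := card_le_closure (K := K) P hP
    have h2 := card_root hζ hlpos.ne'
    have h3 : Nat.card Gal(F/K) = Nat.card G := Nat.card_congr γ.toEquiv
    rw [h3] at h1
    have h4 : Nat.card (A ⧸ P.under A) ^ Nat.card G ≤ b ^ Nat.card G :=
      Nat.pow_le_pow_left hcon _
    have h5 : 2 + k + b ^ Nat.card G < 2 ^ (2 + k + b ^ Nat.card G) := Nat.lt_two_pow_self
    have h6 : 2 ^ (2 + k + b ^ Nat.card G) ≤ l ^ (2 + k + b ^ Nat.card G) :=
      Nat.pow_le_pow_left hl.two_le _
    omega

end Pool.Agent.U975.RF
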