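import Pool.Agent.U975.RF.Group
import Pool.Agent.U975.RM.Real

/-!
# Regular realizations
-/

set_option autoImplicit false

namespace Pool.Agent.U975.RF

open Function Pool.Agent.U975.RM Pool.Agent.U975.RE

theorem pigeonhole' {Γ C : Type*} [Group Γ] [Finite Γ] [Group C] [Finite C] [IsCyclic C]
    (ψ : Γ →* C) (hψ : Surjective ψ) {m n : ℕ} (N : Fin m → Subgroup Γ)
    (hN : ∀ i j, i ≠ j → N i ⊔ N j = ⊤) (hn : ∀ i, (N i).index = n) (hn0 : n ≠ 0)
    (hm : n.primeFactors.card < m) : ∃ i, (N i).map ψ = ⊤ := by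
  let _ : CommGroup C := IsCyclic.commGroup
  exact pigeonhole ψ hψ N hN hn hn0 hm

/-- regular realizations inside larger fields such that the restriction map has the lifting
property -/
theorem exists_regular {κ K : Type} [Field κ] [Finite κ] [Field K] [Algebra κ K]
    (hreg : ∀ x : K, IsAlgebraic κ x → ∃ c : κ, algebraMap κ K c = x)
    (hK : ∀ (G : Type) [Group G] [Finite G], Occurs K G)
    (G : Type) [Group G] [Finite G] (k : ℕ) (hk : 0 < k) :
    ∃ (M : Type) (_ : Field M) (_ : Algebra K M) (_ : FiniteDimensional K M) (_ : IsGalois K M)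
      (F : Type) (_ : Field F) (_ : Algebra K F) (_ : Algebra F M) (_ : IsScalarTower K F M)
      (_ : IsGalois K F), Nonempty (Gal(F/K) ≃* G) ∧
        (∀ N, LiftsOn (AlgEquiv.restrictNormalHom (F := K) (K₁ := M) F) N k) ∧
        ∀ x : F, (∃ f : Polynomial κ, f ≠ 0 ∧
          f.eval₂ ((algebraMap K F).comp (algebraMap κ K)) x = 0) →
          ∃ c : κ, algebraMap K F (algebraMap κ K c) = x := by
  classical
  obtain ⟨X, i1, i2, π, hπ, hlift⟩ := exists_cover G k hk
  set m := (Nat.card G).primeFactors.card + 1 with hm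
  obtain ⟨M, j1, j2, j3, j4, ⟨e⟩⟩ := hK (Fin m → X)
  let φ : Fin m → (Gal(M/K) →* G) := fun i =>
    π.comp ((Pi.evalMonoidHom (fun _ : Fin m => X) i).comp e.toMonoidHom)
  have hev : ∀ i, Surjective (Pi.evalMonoidHom (fun _ : Fin m => X) i) := fun i x =>
    ⟨fun _ => x, rfl⟩
  have hφ : ∀ i, Surjective (φ i) := fun i => hπ.comp ((hev i).comp e.surjective)
  have hφa : ∀ i γ, φ i γ = π (e γ i) := fun _ _ => rfl
  have hsup : ∀ i j, i ≠ j → (φ i).ker ⊔ (φ j).ker = ⊤ := by
    intro i j hij
    rw [eq_top_iff]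
    intro γ _
    have h1 : γ = e.symm (Function.update (e γ) i 1) *
        e.symm (Pi.mulSingle i (e γ i)) := by
      rw [← map_mul]
      apply e.injective
      rw [e.apply_symm_apply]
      funext a
      by_cases ha : a = i
      · subst ha
        simp
      · simp [ha]
    rw [h1]
    refine Subgroup.mul_mem_sup ?_ ?_
    · rw [MonoidHom.mem_ker, hφa, e.apply_symm_apply, Function.update_self, map_one]
    · rw [MonoidHom.mem_ker, hφa, e.apply_symm_apply, Pi.mulSingle_eq_of_ne hij.symm, map_one]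
  have hidx : ∀ i, (φ i).ker.index = Nat.card G := by
    intro i
    rw [Subgroup.index_ker, MonoidHom.range_eq_top.2 (hφ i), Nat.card_congr Subgroup.topEquiv.toEquiv]
  have hLs := fun i => exists_subfield (φ i) (hφ i)
  choose L hL ι hfix hι using hLs
  -- some `L i` is regular
  have hmain : ∃ i, ∀ x : L i, (∃ f : Polynomial κ, f ≠ 0 ∧
      f.eval₂ ((algebraMap K (L i)).comp (algebraMap κ K)) x = 0) →
      ∃ c : κ, algebraMap K (L i) (algebraMap κ K c) = x := by
    by_contra hcon
    push Not at hcon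
    choose x hx hxn using hcon
    let aM : Algebra κ M := ((algebraMap K M).comp (algebraMap κ K)).toAlgebra
    have tM : IsScalarTower κ K M := IsScalarTower.of_algebraMap_eq (fun _ => rfl)
    have halg : ∀ i, IsAlgebraic κ (x i : M) := by
      intro i
      obtain ⟨f, hf, hf0⟩ := hx i
      refine ⟨f, hf, ?_⟩
      have h1 := congrArg (algebraMap (L i) M) hf0
      rw [Polynomial.hom_eval₂, map_zero] at h1
      exact h1
    set E : IntermediateField κ M := IntermediateField.adjoin κ (Set.range fun i => (x i : M))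
      with hE
    have hEfd : FiniteDimensional κ E := by
      rw [hE]
      apply IntermediateField.finiteDimensional_adjoin
      rintro _ ⟨i, rfl⟩
      exact (halg i).isIntegral
    have hEf : Finite E := Module.finite_of_finite κ
    have hxE : ∀ i, (x i : M) ∈ E := fun i => IntermediateField.subset_adjoin κ _ ⟨i, rfl⟩
    let ψ₀ : Gal(M/K) →* Gal(E/κ) :=
      (AlgEquiv.restrictNormalHom (F := κ) (K₁ := M) E).comp (AlgEquiv.restrictScalarsHom κ)
    have hψ₀ : ∀ (γ : Gal(M/K)) (y : E), ((ψ₀ γ y : E) : M) = γ y := by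
      intro γ y
      exact AlgEquiv.restrictNormal_commutes (AlgEquiv.restrictScalarsHom κ γ) E y
    obtain ⟨i, hi⟩ := pigeonhole' ψ₀.rangeRestrict ψ₀.rangeRestrict_surjective
      (fun i => (φ i).ker) hsup hidx Nat.card_pos.ne' (by omega)
    -- `x i` is fixed by the whole Galois group
    have hfixx : ∀ γ : Gal(M/K), γ (x i : M) = x i := by
      intro γ
      have h1 : ψ₀.rangeRestrict γ ∈ ((φ i).ker).map ψ₀.rangeRestrict := by rw [hi]; trivial
      obtain ⟨n, hn, hnγ⟩ := h1
      have h2 : ψ₀ n = ψ₀ γ := congrArg Subtype.val hnγ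
      have h3 := hψ₀ γ ⟨x i, hxE i⟩
      rw [← h2, hψ₀] at h3
      have h4 : n (x i : M) = x i := by
        have h5 : n ∈ (L i).fixingSubgroup := by rw [hfix]; exact hn
        exact (IntermediateField.mem_fixingSubgroup_iff _ _).1 h5 _ (x i).2
      rw [← h4]
      rw [← h4] at h3
      have h6 : n (x i : M) = γ (n (x i : M)) := by
        rw [h4]
        have := h3
        rw [h4, h4] at this
        exact this
      exact h6.symm
    obtain ⟨y, hy⟩ := (IsGalois.mem_range_algebraMap_iff_fixed (F := K) (x i : M)).2 hfixx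
    have hya : IsAlgebraic κ y := by
      have h1 := halg i
      rw [← hy] at h1
      exact (isAlgebraic_algebraMap_iff (algebraMap K M).injective).1 h1
    obtain ⟨c, hc⟩ := hreg y hya
    apply hxn i c
    apply Subtype.ext
    rw [hc]
    exact hy
  obtain ⟨i, hi⟩ := hmain
  refine ⟨M, j1, j2, j3, j4, L i, inferInstance, inferInstance, inferInstance, inferInstance,
    hL i, ⟨ι i⟩, ?_, hi⟩
  -- the lifting property
  have h1 : ∀ N, LiftsOn (φ i) N k := by
    intro N hk' S _ l hl ρ
    obtain ⟨χ, hχ⟩ := hlift hk' S l hl ρ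
    set q : Gal(M/K) →* X := (Pi.evalMonoidHom (fun _ : Fin m => X) i).comp e.toMonoidHom with hq
    let f : (S.comap (φ i)) →* (S.comap π) :=
      (q.comp (S.comap (φ i)).subtype).codRestrict _ (fun s => s.2)
    refine ⟨χ.comp f, fun s => ?_⟩
    exact hχ (f s)
  intro N
  refine (h1 (N.map (ι i).toMonoidHom)).congr (MulEquiv.refl _) (ι i) (hι i) ?_
  intro x hx
  exact ⟨x, hx, rfl⟩

end Pool.Agent.U975.RF
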