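import Pool.Agent.U975.RE.Real

/-!
# A pigeonhole argument with cyclic groups
-/

set_option autoImplicit false

namespace Pool.Agent.U975.RF

open Function Pool.Agent.U975.RM Pool.Agent.U975.RE

/-- a subgroup of a finite cyclic group whose index is divisible by `l` consists of `l`-th powers -/
lemma le_pow_range {C : Type*} [CommGroup C] [Finite C] [IsCyclic C] (H : Subgroup C) {l : ℕ}
    (hl : l.Prime) (hd : l ∣ H.index) : H ≤ (powMonoidHom l : C →* C).range ∧
      (powMonoidHom l : C →* C).range ≠ ⊤ := by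
  have hcyc : IsCyclic (C ⧸ H) := isCyclic_of_surjective _ (QuotientGroup.mk'_surjective H)
  obtain ⟨χ, hχ⟩ := exists_char (C ⧸ H) (l := l) hd
  obtain ⟨g, hg⟩ := IsCyclic.exists_generator (α := C)
  set ψ : C →* Multiplicative (ZMod l) := χ.comp (QuotientGroup.mk' H) with hψ
  have hψs : Surjective ψ := hχ.comp (QuotientGroup.mk'_surjective H)
  have hfl : Fact l.Prime := ⟨hl⟩
  have hpow : ∀ x : Multiplicative (ZMod l), x ^ l = 1 := by
    intro x
    have : Multiplicative.toAdd (x ^ l) = 0 := by
      rw [toAdd_pow, nsmul_eq_mul, CharP.cast_eq_zero, zero_mul]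
    exact this
  have hg1 : ψ g ≠ 1 := by
    intro h
    obtain ⟨x, hx⟩ := hψs (Multiplicative.ofAdd (1 : ZMod l))
    obtain ⟨n, rfl⟩ := Subgroup.mem_zpowers_iff.1 (hg x)
    rw [map_zpow, h, one_zpow] at hx
    have h2 : (0 : ZMod l) = 1 := congrArg Multiplicative.toAdd hx
    exact one_ne_zero h2.symm
  have ho : orderOf (ψ g) = l := orderOf_eq_prime (hpow _) hg1
  constructor
  · intro x hx
    obtain ⟨n, rfl⟩ := Subgroup.mem_zpowers_iff.1 (hg x)
    have h1 : ψ g ^ n = 1 := by
      rw [← map_zpow]
      show χ (QuotientGroup.mk' H (g ^ n)) = 1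
      have : QuotientGroup.mk' H (g ^ n) = 1 := (QuotientGroup.eq_one_iff _).2 hx
      rw [this, map_one]
    have h2 : (l : ℤ) ∣ n := by
      rw [← ho]
      exact orderOf_dvd_iff_zpow_eq_one.2 h1
    obtain ⟨m, rfl⟩ := h2
    refine ⟨g ^ m, ?_⟩
    rw [powMonoidHom_apply, mul_comm, zpow_mul]
    norm_cast
  · intro h
    have h1 : g ∈ (powMonoidHom l : C →* C).range := by rw [h]; trivial
    obtain ⟨y, hy⟩ := h1
    apply hg1
    rw [← hy, powMonoidHom_apply, map_pow, hpow]

/-- the pigeonhole argument -/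
theorem pigeonhole {Γ C : Type*} [Group Γ] [Finite Γ] [CommGroup C] [Finite C] [IsCyclic C]
    (ψ : Γ →* C) (hψ : Surjective ψ) {m n : ℕ} (N : Fin m → Subgroup Γ)
    (hN : ∀ i j, i ≠ j → N i ⊔ N j = ⊤) (hn : ∀ i, (N i).index = n) (hn0 : n ≠ 0)
    (hm : n.primeFactors.card < m) : ∃ i, (N i).map ψ = ⊤ := by
  classical
  by_contra hcon
  push Not at hcon
  have hex : ∀ i, ∃ l : ℕ, l.Prime ∧ l ∣ ((N i).map ψ).index := by
    intro i
    apply Nat.exists_prime_and_dvd
    rw [Ne, Subgroup.index_eq_one]
    exact hcon i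
  choose l hl hd using hex
  have hmem : ∀ i, l i ∈ n.primeFactors := by
    intro i
    refine Nat.mem_primeFactors.2 ⟨hl i, ?_, hn0⟩
    rw [← hn i]
    exact (hd i).trans (Subgroup.index_map_dvd _ hψ)
  obtain ⟨i, -, j, -, hij, hlij⟩ := Finset.exists_ne_map_eq_of_card_lt_of_maps_to
    (s := (Finset.univ : Finset (Fin m))) (t := n.primeFactors) (f := l)
    (by rw [Finset.card_univ, Fintype.card_fin]; exact hm) (fun i _ => hmem i)
  have h1 := le_pow_range ((N i).map ψ) (hl i) (hd i)
  have h2 := le_pow_range ((N j).map ψ) (hl j) (hd j)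
  apply h1.2
  rw [eq_top_iff]
  have h3 : (N i ⊔ N j).map ψ = ⊤ := by
    rw [hN i j hij, ← MonoidHom.range_eq_map, MonoidHom.range_eq_top]
    exact hψ
  rw [← h3, Subgroup.map_sup]
  refine sup_le h1.1 ?_
  rw [hlij]
  exact h2.1

/-- the subfield of a Galois extension that corresponds to a quotient of the Galois group -/
theorem exists_subfield {K M : Type} [Field K] [Field M] [Algebra K M] [FiniteDimensional K M]
    [IsGalois K M] {G : Type} [Group G] (φ : Gal(M/K) →* G) (hφ : Surjective φ) :
    ∃ (L : IntermediateField K M) (_ : IsGalois K L) (ι : Gal(L/K) ≃* G),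
      L.fixingSubgroup = φ.ker ∧
      ∀ x, ι (AlgEquiv.restrictNormalHom (F := K) (K₁ := M) L x) = φ x := by
  set N : Subgroup Gal(M/K) := φ.ker with hN
  have hNn : N.Normal := inferInstance
  have hgal : IsGalois K (IntermediateField.fixedField N) :=
    IsGalois.of_fixedField_normal_subgroup N
  set L := IntermediateField.fixedField N with hL
  set res := AlgEquiv.restrictNormalHom (F := K) (K₁ := M) L with hres
  have hressurj : Surjective res := AlgEquiv.restrictNormalHom_surjective M
  have hfix : L.fixingSubgroup = N := by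
    rw [hL, IntermediateField.fixingSubgroup_fixedField]
  have hker : res.ker = N := by
    rw [hres, IntermediateField.restrictNormalHom_ker, hfix]
  let ι : Gal(L/K) ≃* G :=
    (QuotientGroup.quotientKerEquivOfSurjective res hressurj).symm.trans
      ((QuotientGroup.quotientMulEquivOfEq hker).trans
        (QuotientGroup.quotientKerEquivOfSurjective _ hφ))
  have hι : ∀ x, ι (res x) = φ x := by
    intro x
    have h1 : (QuotientGroup.quotientKerEquivOfSurjective res hressurj).symm (res x) =
        (x : Gal(M/K) ⧸ res.ker) := by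
      rw [MulEquiv.symm_apply_eq]
      rfl
    show (QuotientGroup.quotientKerEquivOfSurjective _ hφ)
      ((QuotientGroup.quotientMulEquivOfEq hker)
      ((QuotientGroup.quotientKerEquivOfSurjective res hressurj).symm (res x))) = φ x
    rw [h1]
    rfl
  exact ⟨L, hgal, ι, hfix, hι⟩

end Pool.Agent.U975.RF
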